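import Pool.Agent.X264.BK.Main

/-!
# Beilinson's conjecture for singular K3 surfaces: one surface per newform
-/

set_option autoImplicit false

open Pool.Agent.X264.BK

namespace Pool.Agent.Results.MP_870c49_nt.OneSurfacePerNewform

universe u

/-- **One surface per newform, one element.** Q1 holds for all singular K3 surfaces over `ℚ` if and only
if for one surface `X` for each newform of weight 3 which occurs the space `H³_M(X, ℚ(4))_tr` is zero or
spanned by one element `ξ` whose regulator, paired with `γ`, is in `ℚ^× L'(h²_tr(X), -1)`. -/
theorem result (T : Theory.{u}) (hL : T.HasNonzero) (hT : T.HasTransport) (R : T.Ob → Prop)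
    (hR : T.IsFull R) : (∀ C, T.Holds C) ↔ ∀ C, R C → T.HasOneElement C :=
  Theory.main hL hT R hR

end Pool.Agent.Results.MP_870c49_nt.OneSurfacePerNewform
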