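import Pool.Agent.X242.DR13

/-!
# The numbers `L'(f, -1)` of the newforms of singular K3 surfaces and universal rational weights

Let `X` be a singular K3 surface over `ℚ` and `f = ∑ c(n) qⁿ` the newform of weight 3 with `L(h²_tr(X), s) = L(f, s)`
(Livné); the `c(n)` are integers.

**Rational weights.** Fix `γ > π/2`, `C_1(γ) = -(γ_E + iγ)` with Euler's constant `γ_E`, and rational numbers `ρ_N(n)`, for
every `N` almost all of them zero, with
`|ρ_N(n) - Re (N e^{iγ log n / N} / (C_1(γ) Γ(1 + log n / N)))| ≤ 1 / (N n²)`. They do not depend on `X`. Put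
`x_N(f) = ∑_n ρ_N(n⁴) n c(n)`, a rational number, a finite rational linear combination of the numbers `c(n)`.

1. `L(f, -1) = 0`, and `x_N(f) = 4 L'(f, -1) + O(1/N)`, unconditionally for the `L`-functions of all newforms of
   weight 3 with integral coefficients.
2. A real number `P ≠ 0` is a nonzero rational multiple of `L'(f, -1)` if and only if for some natural number `M ≥ 1` the
   numbers `M x_N(f) / P` come arbitrarily close to nonzero integers for arbitrarily large `N`.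
3. So if `V` is the space `H³_M(X, ℚ(4))_tr` and `Π : V → ℝ` the regulator paired with a generator of the transcendental
   homology: Q1 for `X` holds if and only if for every `ξ ≠ 0` one has `Π(ξ) ≠ 0` and for some `M ≥ 1` the numbers
   `M x_N(f) / Π(ξ)` come arbitrarily close to nonzero integers for arbitrarily large `N`.

The statement to be tested for given `M` (and given precision) contains no `L`-function: only the coefficients `c(n)`, with
weights which are the same for all surfaces. The proof uses the rotated law at `s = 0`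
(`Pool.Agent.X242.DR`) and the continuation of the `L`-functions of newforms (`Pool.Agent.W355.LJ`).
-/

set_option autoImplicit false

namespace Pool.Agent.Results.MP_870c49_nt.RationalApproximations

open Filter Topology UpperHalfPlane MatrixGroups ModularForm CongruenceSubgroup Asymptotics
open Pool.Agent.X242.DR
open scoped ComplexConjugate

/-- `f` is an eigenfunction of the Fricke involution. -/
def IsFricke (N : ℕ) [NeZero N] (f : CuspForm (Gamma1 N : Subgroup (GL (Fin 2) ℝ)) ((3 : ℕ) : ℤ)) : Prop :=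
  ∃ w : ℂ, ‖w‖ = 1 ∧ ∀ τ τ' τ'' : ℍ, (τ' : ℂ) * ((N : ℂ) * (τ : ℂ)) = -1 →
    (τ'' : ℂ) = -conj (τ : ℂ) → f τ' = w * ((Real.sqrt N : ℝ) * (τ : ℂ)) ^ 3 * conj (f τ'')

/-- The integers `c(n)` are the Fourier coefficients of `f`. -/
def HasCoeff (N : ℕ) (f : CuspForm (Gamma1 N : Subgroup (GL (Fin 2) ℝ)) ((3 : ℕ) : ℤ)) (c : ℕ → ℤ) : Prop :=
  ∀ n, (qExpansion 1 f).coeff n = (c n : ℂ)

/-- `f ∈ S_3(Γ_1(N))` is a newform with integral Fourier coefficients `c(n)`, with the character `χ` (quadratic):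
`c(1) = 1`, the Hecke relations, and `f` is an eigenfunction of the Fricke involution. The newforms of the singular K3
surfaces over `ℚ` are of this kind. -/
structure IsIntegralNewform (N : ℕ) [NeZero N] (χ : DirichletCharacter ℤ N)
    (f : CuspForm (Gamma1 N : Subgroup (GL (Fin 2) ℝ)) ((3 : ℕ) : ℤ)) (c : ℕ → ℤ) : Prop where
  coeff : HasCoeff N f c
  one : c 1 = 1
  mul : ∀ m n : ℕ, Nat.Coprime m n → c (m * n) = c m * c n
  pow : ∀ p j : ℕ, p.Prime → c (p ^ (j + 2)) = c p * c (p ^ (j + 1)) - χ p * (p : ℤ) ^ 2 * c (p ^ j)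
  fricke : IsFricke N f

/-- `L` is the entire continuation of `∑ c(n) n^{-s}`. -/
structure IsLFunction (c : ℕ → ℤ) (L : ℂ → ℂ) : Prop where
  entire : Differentiable ℂ L
  series : ∀ s : ℂ, 5 / 2 < s.re → L s = LSeries (fun n => (c n : ℂ)) s

/-- `x_N = ∑ ρ_N(n⁴) n c(n)` -/
noncomputable def approx (ρ : ℕ → ℕ →₀ ℚ) (c : ℕ → ℤ) (N : ℕ) : ℚ :=
  comb (ρ N) (powCoef 4 fun n => (n : ℚ) * (c n : ℚ))

/-- For some `M ≥ 1` the numbers `M x_N / P` come arbitrarily close to nonzero integers for arbitrarily large `N`. -/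
def NearIntegers (x : ℕ → ℚ) (P : ℝ) : Prop :=
  ∃ M : ℕ, 1 ≤ M ∧ ∀ ε : ℝ, 0 < ε → ∀ N₀ : ℕ, ∃ N ≥ N₀, ∃ z : ℤ, z ≠ 0 ∧ |M * (x N : ℝ) / P - z| < ε

/-- **Beilinson's conjecture for singular K3 surfaces and rational approximations.** -/
theorem result :
    -- 0. the weights exist
    ((∀ γ : ℝ, Ck 1 γ = -(Real.eulerMascheroniConstant + γ * Complex.I)) ∧
      ∀ γ : ℝ, ∃ ρ, IsRational 1 γ ρ) ∧
    ∀ γ : ℝ, Real.pi / 2 < γ → ∀ ρ : ℕ → ℕ →₀ ℚ, IsRational 1 γ ρ →
    ∀ (N : ℕ) [NeZero N] (χ : DirichletCharacter ℤ N) (f : CuspForm (Gamma1 N : Subgroup (GL (Fin 2) ℝ)) ((3 : ℕ) : ℤ))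
      (c : ℕ → ℤ), IsIntegralNewform N χ f c →
    (∃ L : ℂ → ℂ, IsLFunction c L) ∧ ∀ L : ℂ → ℂ, IsLFunction c L →
    -- 1. the approximations
    (L (-1) = 0 ∧ (deriv L (-1)).im = 0 ∧
      (fun M : ℕ => (approx ρ c M : ℝ) - 4 * (deriv L (-1)).re) =O[atTop] (fun M : ℕ => 1 / (M : ℝ))) ∧
    -- 2. rational multiples
    (∀ P : ℝ, P ≠ 0 → ((∃ q : ℚ, q ≠ 0 ∧ P = q * (deriv L (-1)).re) ↔ NearIntegers (approx ρ c) P)) ∧
    -- 3. the conjecture
    ∀ (V : Type) [AddCommGroup V] [Module ℚ V] (Pi : V →ₗ[ℚ] ℝ),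
      (∀ α : V, α ≠ 0 → ∃ q : ℚ, q ≠ 0 ∧ Pi α = q * (deriv L (-1)).re) ∧ (deriv L (-1)).re ≠ 0 ↔
      (∀ α : V, α ≠ 0 → Pi α ≠ 0 ∧ NearIntegers (approx ρ c) (Pi α)) ∧ (deriv L (-1)).re ≠ 0 := by
  refine ⟨⟨fun γ => Ck_one γ, fun γ => exists_rational 1 γ⟩, ?_⟩
  intro γ hγ ρ hρ N _ χ f c hf
  obtain ⟨w, hw, hfr⟩ := hf.fricke
  have hNF : Pool.Agent.W355.LJ.IsNF N 3 f w := by
    refine ⟨?_, hw, hfr⟩
    rw [hf.coeff 1, hf.one, Int.cast_one]
  have hcf : (fun n => (qExpansion 1 f).coeff n) = fun n => (c n : ℂ) := funext hf.coeff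
  refine ⟨?_, fun L hL => ?_⟩
  · obtain ⟨L, h1, h2, -⟩ := Pool.Agent.X242.NF.exists_L f (by norm_num) hNF
    rw [hcf] at h2
    refine ⟨L, h1, fun s hs => h2 s ?_⟩
    push_cast
    linarith
  · have hlaw := Pool.Agent.X242.NF.law f (by norm_num) hNF (a := fun n => (c n : ℚ))
      (fun n => by rw [hf.coeff n]; push_cast; rfl) hL.entire (fun s hs => by
        have h1 := hL.series s (by push_cast at hs; linarith)
        rw [h1]
        congr 1) (κ := 4) (by norm_num) hγ hρ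
    obtain ⟨h0, him, hO⟩ := hlaw
    have hO' : (fun M : ℕ => (approx ρ c M : ℝ) - 4 * (deriv L (-1)).re) =O[atTop]
        (fun M : ℕ => 1 / (M : ℝ)) := by
      simpa [approx] using hO
    have hlim : Tendsto (fun M : ℕ => (approx ρ c M : ℝ)) atTop (𝓝 (((4 : ℕ) : ℝ) * (deriv L (-1)).re)) := by
      have h1 := hO'.trans_tendsto tendsto_one_div_atTop_nhds_zero_nat
      have h2 := h1.add_const (4 * (deriv L (-1)).re)
      rw [zero_add] at h2
      push_cast
      exact h2.congr fun N => by ring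
    have h2 : ∀ P : ℝ, P ≠ 0 → ((∃ q : ℚ, q ≠ 0 ∧ P = q * (deriv L (-1)).re) ↔
        NearIntegers (approx ρ c) P) := fun P hP => ratio_iff (by norm_num) hlim hP
    refine ⟨⟨h0, him, hO'⟩, h2, ?_⟩
    intro V _ _ Pi
    constructor
    · rintro ⟨h3, h4⟩
      refine ⟨fun α hα => ?_, h4⟩
      obtain ⟨q, hq, hP⟩ := h3 α hα
      have hne : Pi α ≠ 0 := by
        rw [hP]
        exact mul_ne_zero (by exact_mod_cast hq) h4
      exact ⟨hne, (h2 _ hne).1 ⟨q, hq, hP⟩⟩
    · rintro ⟨h3, h4⟩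
      exact ⟨fun α hα => (h2 _ (h3 α hα).1).2 (h3 α hα).2, h4⟩

end Pool.Agent.Results.MP_870c49_nt.RationalApproximations
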